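import Pool.Agent.helper65.HC.Top

namespace Pool.Agent.helper65.HC
open Finset

lemma lam_isGreatest (d m : ℕ) (h1 : 1 ≤ m) (h2 : m ≤ 2 ^ d) :
    IsGreatest {t | ∃ U : Finset (V d), U.card = m ∧ IsTop U t} (lam d m) := by
  set S := {t | ∃ U : Finset (V d), U.card = m ∧ IsTop U t} with hS
  have hfin : S.Finite := by
    have : S ⊆ ⋃ U : Finset (V d), {t | IsTop U t} := by
      rintro t ⟨U, _, ht⟩
      exact Set.mem_iUnion.2 ⟨U, ht⟩
    refine Set.Finite.subset (Set.finite_iUnion (fun U => ?_)) this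
    refine Set.Subsingleton.finite ?_
    intro a ha b hb
    exact IsGreatest.unique ha hb
  have hne : S.Nonempty := by
    have hc : m ≤ (univ : Finset (V d)).card := by simpa using h2
    obtain ⟨U, _, hU⟩ := Finset.exists_subset_card_eq hc
    obtain ⟨t, ht⟩ := isTop_exists U (Finset.card_pos.1 (by omega))
    exact ⟨t, U, hU, ht⟩
  exact ⟨hne.csSup_mem hfin, fun t ht => le_csSup hfin.bddAbove ht⟩

/-- every eigenvalue is at most the top one -/
lemma le_lam {d : ℕ} {U : Finset (V d)} {μ : ℝ} (h : IsEig U μ) : μ ≤ lam d U.card := by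
  have hne := nonempty_of_eig h
  obtain ⟨t, ht⟩ := isTop_exists U hne
  have h1 : 1 ≤ U.card := Finset.card_pos.2 hne
  have h2 : U.card ≤ 2 ^ d := by simpa using Finset.card_le_univ U
  exact (ht.2 h).trans ((lam_isGreatest d U.card h1 h2).2 ⟨U, rfl, ht⟩)

/-- to evaluate `lam` -/
lemma lam_eq {d m : ℕ} {μ : ℝ} (h : ∃ U : Finset (V d), U.card = m ∧ IsEig U μ)
    (hub : ∀ U : Finset (V d), U.card = m → ∀ t, IsEig U t → t ≤ μ) : lam d m = μ := by
  obtain ⟨U, hU, he⟩ := h
  subst hU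
  refine le_antisymm ?_ (le_lam he)
  have hne := nonempty_of_eig he
  have h1 : 1 ≤ U.card := Finset.card_pos.2 hne
  have h2 : U.card ≤ 2 ^ d := by simpa using Finset.card_le_univ U
  obtain ⟨⟨U', hU', ht⟩, _⟩ := lam_isGreatest d U.card h1 h2
  exact hub U' hU' _ ht.1

/-- lower bound for `lam` by a test function -/
lemma lam_ge {d m : ℕ} (U : Finset (V d)) (hU : U.card = m) (f : V d → ℝ)
    (hf : ∀ x, x ∉ U → f x = 0) (hpos : 0 < ∑ x, f x ^ 2) (μ : ℝ)
    (h : μ * ∑ x, f x ^ 2 ≤ ∑ x, f x * ∑ i, f (flip i x)) : μ ≤ lam d m := by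
  subst hU
  have hne : U.Nonempty := by
    by_contra h0
    rw [Finset.not_nonempty_iff_eq_empty] at h0
    subst h0
    have : ∑ x, f x ^ 2 = 0 := Finset.sum_eq_zero (fun x _ => by rw [hf x (by simp)]; simp)
    linarith
  obtain ⟨t, ht⟩ := isTop_exists U hne
  have h1 := rayleigh ht f hf
  have h2 : μ ≤ t := le_of_mul_le_mul_right (h.trans h1) hpos
  exact h2.trans (le_lam ht.1)

/-- strict version -/
lemma lam_gt {d m : ℕ} (U : Finset (V d)) (hU : U.card = m) (f : V d → ℝ)
    (hf : ∀ x, x ∉ U → f x = 0) (hpos : 0 < ∑ x, f x ^ 2) (μ : ℝ)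
    (h : μ * ∑ x, f x ^ 2 < ∑ x, f x * ∑ i, f (flip i x)) : μ < lam d m := by
  have h1 : (∑ x, f x * ∑ i, f (flip i x)) / ∑ x, f x ^ 2 ≤ lam d m := by
    refine lam_ge U hU f hf hpos _ ?_
    rw [div_mul_cancel₀ _ hpos.ne']
  refine lt_of_lt_of_le ?_ h1
  rwa [lt_div_iff₀ hpos]

lemma isEig_iff {d : ℕ} (U : Finset (V d)) (μ : ℝ) : IsEig U μ ↔
    ∃ f : V d → ℝ, (∀ x, x ∉ U → f x = 0) ∧ (∃ x, f x ≠ 0) ∧
      ∀ x ∈ U, ∑ i, f (flip i x) = μ * f x := by
  constructor
  · intro h
    obtain ⟨v, hv0, hv⟩ := h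
    refine ⟨ext U v, fun x hx => by simp [ext, hx], ?_, fun x hx => ?_⟩
    · obtain ⟨x, hx⟩ := Function.ne_iff.1 hv0
      exact ⟨x.1, by simpa [ext] using hx⟩
    · have := hv ⟨x, hx⟩
      rw [mulVec_eq] at this
      rw [this]; simp [ext, hx]
  · rintro ⟨f, hf, hne, he⟩
    exact isEig_of U f μ hf hne he

/-- `μ` is an eigenvalue of an induced subgraph on `m` vertices. -/
def ED (d m : ℕ) (μ : ℝ) : Prop := ∃ U : Finset (V d), U.card = m ∧ IsEig U μ

lemma cons_inj {d : ℕ} (b : Bool) : Function.Injective (fun z : V d => (Fin.cons b z : V (d + 1))) := by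
  intro z w h
  exact (Fin.cons_inj.1 h).2

lemma ED.zero {d m : ℕ} {μ : ℝ} (h : ED d m μ) : ED (d + 1) m μ := by
  classical
  obtain ⟨U, hU, he⟩ := h
  rw [isEig_iff] at he
  obtain ⟨f, hf, ⟨x0, hx0⟩, he⟩ := he
  refine ⟨U.image (fun z => (Fin.cons false z : V (d + 1))), ?_, ?_⟩
  · rw [Finset.card_image_of_injective _ (cons_inj false), hU]
  · rw [isEig_iff]
    refine ⟨fun x => if x 0 then 0 else f (fun i => x i.succ), ?_, ⟨Fin.cons false x0, by simpa using hx0⟩, ?_⟩
    · intro x hx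
      by_cases h0 : x 0
      · simp [h0]
      · have h1 : (fun i => x i.succ) ∉ U := by
          intro h2
          apply hx
          refine Finset.mem_image.2 ⟨_, h2, ?_⟩
          funext j
          refine Fin.cases ?_ (fun j => ?_) j
          · simp at h0; simp [h0]
          · simp
        simp [h0, hf _ h1]
    · intro x hx
      obtain ⟨z, hz, rfl⟩ := Finset.mem_image.1 hx
      rw [Fin.sum_univ_succ, flip_zero_cons]
      simp only [flip_succ_cons]
      simpa using he z hz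

lemma ED.one {d m : ℕ} {μ : ℝ} (h : ED d m μ) : ED (d + 1) (2 * m) (μ + 1) := by
  classical
  obtain ⟨U, hU, he⟩ := h
  rw [isEig_iff] at he
  obtain ⟨f, hf, ⟨x0, hx0⟩, he⟩ := he
  refine ⟨U.image (fun z => (Fin.cons false z : V (d + 1))) ∪
    U.image (fun z => (Fin.cons true z : V (d + 1))), ?_, ?_⟩
  · rw [Finset.card_union_of_disjoint, Finset.card_image_of_injective _ (cons_inj false),
      Finset.card_image_of_injective _ (cons_inj true), hU]
    · ring
    · rw [Finset.disjoint_left]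
      intro x h1 h2
      obtain ⟨z, _, rfl⟩ := Finset.mem_image.1 h1
      obtain ⟨w, _, hw⟩ := Finset.mem_image.1 h2
      have := congrFun hw 0
      simp at this
  · rw [isEig_iff]
    refine ⟨fun x => f (fun i => x i.succ), ?_, ⟨Fin.cons false x0, by simpa using hx0⟩, ?_⟩
    · intro x hx
      apply hf
      intro h2
      apply hx
      rw [Finset.mem_union]
      have e : x = Fin.cons (x 0) (fun i => x i.succ) := by
        funext j
        refine Fin.cases ?_ (fun j => ?_) j <;> simp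
      cases h0 : x 0
      · left; refine Finset.mem_image.2 ⟨_, h2, ?_⟩; rw [h0] at e; exact e.symm
      · right; refine Finset.mem_image.2 ⟨_, h2, ?_⟩; rw [h0] at e; exact e.symm
    · intro x hx
      have : ∃ b z, z ∈ U ∧ x = Fin.cons b z := by
        rcases Finset.mem_union.1 hx with h | h
        · obtain ⟨z, hz, rfl⟩ := Finset.mem_image.1 h; exact ⟨_, z, hz, rfl⟩
        · obtain ⟨z, hz, rfl⟩ := Finset.mem_image.1 h; exact ⟨_, z, hz, rfl⟩
      obtain ⟨b, z, hz, rfl⟩ := this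
      rw [Fin.sum_univ_succ, flip_zero_cons]
      simp only [flip_succ_cons]
      have := he z hz
      simp only [Fin.cons_succ]
      rw [this]; ring

lemma ED.zeros {d m : ℕ} {μ : ℝ} (h : ED d m μ) (n : ℕ) : ED (d + n) m μ := by
  induction n with
  | zero => exact h
  | succ n ih => exact ih.zero

lemma ED.ones {d m : ℕ} {μ : ℝ} (h : ED d m μ) (n : ℕ) : ED (d + n) (2 ^ n * m) (μ + n) := by
  induction n with
  | zero => simpa using h
  | succ n ih =>
    have := ih.one
    rw [show 2 * (2 ^ n * m) = 2 ^ (n + 1) * m by ring] at this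
    rw [show μ + ((n + 1 : ℕ) : ℝ) = μ + n + 1 by push_cast; ring]
    exact this

lemma ED.base : ED 0 1 0 := by
  refine ⟨univ, by decide, ?_⟩
  rw [isEig_iff]
  exact ⟨fun _ => 1, fun x hx => absurd (Finset.mem_univ x) hx, ⟨default, by norm_num⟩,
    fun x _ => by rw [Fin.sum_univ_zero]; ring⟩

lemma ED.cube (d k : ℕ) (h : k ≤ d) : ED d (2 ^ k) k := by
  obtain ⟨n, rfl⟩ := Nat.exists_eq_add_of_le h
  have := (ED.base.ones k).zeros n
  simpa using this

lemma ED.three : ED 2 3 (√2) := by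
  refine ⟨univ.filter (fun x : V 2 => ¬ (x 0 = true ∧ x 1 = true)), by decide, ?_⟩
  rw [isEig_iff]
  refine ⟨fun x => if x 0 = true ∧ x 1 = true then 0 else if x 0 = true ∨ x 1 = true then 1 else √2,
    ?_, ⟨fun _ => false, by simp⟩, ?_⟩
  · intro x hx
    simp only [Finset.mem_filter, Finset.mem_univ, true_and, not_not] at hx
    simp [hx]
  · intro x hx
    simp only [Finset.mem_filter, Finset.mem_univ, true_and] at hx
    have h2 : √2 * √2 = 2 := Real.mul_self_sqrt (by norm_num)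
    rw [Fin.sum_univ_two]
    have e00 : flip 0 x 0 = !x 0 := by simp [flip]
    have e01 : flip 0 x 1 = x 1 := by simp [flip]
    have e10 : flip 1 x 0 = x 0 := by simp [flip]
    have e11 : flip 1 x 1 = !x 1 := by simp [flip]
    simp only [e00, e01, e10, e11]
    cases h0 : x 0 <;> cases h1 : x 1 <;> (simp_all; try norm_num)

theorem lam_two (d : ℕ) (hd : 2 ≤ d) : lam d (2 ^ (d - 2)) = d - 2 := by
  refine lam_eq ?_ ?_
  · have := ED.cube d (d - 2) (by omega)
    rwa [Nat.cast_sub hd] at this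
  · intro U hU t ht
    have h := (upper ht).2.1
    rw [hU] at h
    have e : ((2 ^ (d - 2) : ℕ) : ℝ) / 2 ^ d = 1 / 4 := by
      obtain ⟨n, rfl⟩ := Nat.exists_eq_add_of_le hd
      rw [show 2 + n - 2 = n by omega, pow_add]; push_cast
      field_simp; norm_num
    rw [e] at h; linarith

theorem lam_one (d : ℕ) (hd : 1 ≤ d) : lam d (2 ^ (d - 1)) = d - 1 := by
  refine lam_eq ?_ ?_
  · have := ED.cube d (d - 1) (by omega)
    rwa [Nat.cast_sub hd, Nat.cast_one] at this
  · intro U hU t ht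
    have h := (upper ht).1
    rw [hU] at h
    have e : ((2 ^ (d - 1) : ℕ) : ℝ) / 2 ^ d = 1 / 2 := by
      obtain ⟨n, rfl⟩ := Nat.exists_eq_add_of_le hd
      rw [show 1 + n - 1 = n by omega, pow_add]; push_cast
      field_simp
    rw [e] at h; linarith

theorem lam_three (d : ℕ) (hd : 3 ≤ d) : lam d (2 ^ (d - 3)) = d - 3 := by
  refine lam_eq ?_ ?_
  · have := ED.cube d (d - 3) (by omega)
    rwa [Nat.cast_sub hd] at this
  · intro U hU t ht
    have h := (upper ht).2.2
    rw [hU] at h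
    have e : ((2 ^ (d - 3) : ℕ) : ℝ) / 2 ^ d = 1 / 8 := by
      obtain ⟨n, rfl⟩ := Nat.exists_eq_add_of_le hd
      rw [show 3 + n - 3 = n by omega, pow_add]; push_cast
      field_simp; norm_num
    rw [e] at h; linarith

theorem lam_34 (d : ℕ) (hd : 2 ≤ d) : lam d (3 * 2 ^ (d - 2)) = d - 2 + √2 := by
  refine lam_eq ?_ ?_
  · obtain ⟨n, rfl⟩ := Nat.exists_eq_add_of_le hd
    have := ED.three.ones n
    rw [show 2 + n - 2 = n by omega, show 3 * 2 ^ n = 2 ^ n * 3 by ring]
    push_cast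
    rw [show (2 : ℝ) + n - 2 + √2 = √2 + n by ring]
    exact this
  · intro U hU t ht
    have h := upper_dense ht (1 / 4) (by
      rw [hU]
      obtain ⟨n, rfl⟩ := Nat.exists_eq_add_of_le hd
      rw [show 2 + n - 2 = n by omega, pow_add]; push_cast; ring) (by norm_num) (by norm_num)
    have e : √(9 - 8 * (1 / 4) + 16 * (1 / 4) ^ 2) = 2 * √2 := by
      rw [show (9 : ℝ) - 8 * (1 / 4) + 16 * (1 / 4) ^ 2 = 2 ^ 2 * 2 by norm_num,
        Real.sqrt_mul (by norm_num), Real.sqrt_sq (by norm_num)]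
    rw [e] at h; linarith

end Pool.Agent.helper65.HC
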