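import Pool.Agent.helper65.HC.Exact

namespace Pool.Agent.helper65.HC
open Finset

/-- number of coordinates equal to `true` -/
def wt {d : ℕ} (x : V d) : ℕ := (univ.filter (fun i => x i = true)).card

lemma wt_flip_true {d : ℕ} (x : V d) (i : Fin d) (h : x i = true) :
    wt (flip i x) + 1 = wt x := by
  unfold wt
  have e : (univ.filter (fun j => x j = true))
      = insert i (univ.filter (fun j => flip i x j = true)) := by
    ext j
    simp only [Finset.mem_filter, Finset.mem_univ, true_and, Finset.mem_insert]
    by_cases hj : j = i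
    · subst hj; simp [h]
    · simp [flip, hj]
  rw [e, Finset.card_insert_of_notMem]
  simp [flip, h]

lemma wt_flip_false {d : ℕ} (x : V d) (i : Fin d) (h : x i = false) :
    wt (flip i x) = wt x + 1 := by
  have h1 : flip i x i = true := by simp [flip, h]
  have := wt_flip_true (flip i x) i h1
  rw [flip_flip] at this
  exact this.symm

lemma sum_wt {d : ℕ} (F : ℕ → ℝ) (x : V d) :
    ∑ i, F (wt (flip i x)) = wt x * F (wt x - 1) + (d - wt x : ℕ) * F (wt x + 1) := by
  rw [← Finset.sum_filter_add_sum_filter_not univ (fun i => x i = true)]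
  congr 1
  · rw [Finset.sum_congr rfl (g := fun _ => F (wt x - 1))]
    · rw [Finset.sum_const, nsmul_eq_mul]; rfl
    · intro i hi
      simp only [Finset.mem_filter, Finset.mem_univ, true_and] at hi
      have := wt_flip_true x i hi
      congr 1; omega
  · rw [Finset.sum_congr rfl (g := fun _ => F (wt x + 1))]
    · rw [Finset.sum_const, nsmul_eq_mul]
      congr 2
      have := Finset.card_filter_add_card_filter_not (s := (univ : Finset (Fin d)))
        (fun i => x i = true)
      rw [Finset.card_univ, Fintype.card_fin] at this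
      unfold wt
      omega
    · intro i hi
      simp only [Finset.mem_filter, Finset.mem_univ, true_and, Bool.not_eq_true] at hi
      rw [wt_flip_false x i hi]

lemma card_wt (d w : ℕ) : (univ.filter (fun x : V d => wt x = w)).card = d.choose w := by
  classical
  have hc : (Finset.powersetCard w (univ : Finset (Fin d))).card = d.choose w := by
    rw [Finset.card_powersetCard, Finset.card_univ, Fintype.card_fin]
  rw [← hc]
  refine Finset.card_bij' (fun x _ => univ.filter (fun i => x i = true))
    (fun s _ => fun i => decide (i ∈ s)) ?_ ?_ ?_ ?_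
  · intro x hx
    simp only [Finset.mem_filter, Finset.mem_univ, true_and] at hx
    rw [Finset.mem_powersetCard]
    exact ⟨Finset.subset_univ _, hx⟩
  · intro s hs
    rw [Finset.mem_powersetCard] at hs
    simp only [Finset.mem_filter, Finset.mem_univ, true_and]
    rw [← hs.2]; unfold wt; congr 1
    ext i; simp
  · intro x _; funext i; simp
  · intro s _; ext i; simp

/-- two vertices of weight three -/
def w1 : V 22 := fun i => decide (i.val < 3)
/-- two vertices of weight three -/
def w2 : V 22 := fun i => decide (i.val < 2 ∨ i.val = 3)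

lemma wt_w1 : wt w1 = 3 := by decide
lemma wt_w2 : wt w2 = 3 := by decide

/-- a ball of radius two and two more points -/
def UU : Finset (V 22) := univ.filter (fun x => wt x = 0) ∪ univ.filter (fun x => wt x = 1) ∪
  univ.filter (fun x => wt x = 2) ∪ {w1, w2}

lemma w1_ne : w1 ≠ w2 := by
  intro h; have := congrFun h 2; simp [w1, w2] at this

lemma card_UU : UU.card = 256 := by
  unfold UU
  rw [Finset.card_union_of_disjoint, Finset.card_union_of_disjoint,
    Finset.card_union_of_disjoint, card_wt, card_wt, card_wt, Finset.card_pair w1_ne]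
  · decide
  · rw [Finset.disjoint_left]; intro x h1 h2
    simp only [Finset.mem_filter, Finset.mem_univ, true_and] at h1 h2; omega
  · rw [Finset.disjoint_left]; intro x h1 h2
    simp only [Finset.mem_filter, Finset.mem_union, Finset.mem_univ, true_and] at h1 h2; omega
  · rw [Finset.disjoint_left]; intro x h1 h2
    simp only [Finset.mem_filter, Finset.mem_union, Finset.mem_univ, true_and,
      Finset.mem_insert, Finset.mem_singleton] at h1 h2
    rcases h2 with rfl | rfl
    · rw [wt_w1] at h1; omega
    · rw [wt_w2] at h1; omega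

/-- radial profile -/
noncomputable def ph : ℕ → ℝ
  | 0 => 11
  | 1 => 4
  | 2 => 1
  | _ => 0

/-- the test function -/
noncomputable def ff (x : V 22) : ℝ := ph (wt x) + if x = w1 ∨ x = w2 then 1 / 4 else 0

lemma ph_nonneg (w : ℕ) : 0 ≤ ph w := by
  unfold ph; split <;> norm_num

lemma ff_ge (x : V 22) : ph (wt x) ≤ ff x := by
  unfold ff; split_ifs <;> norm_num

lemma ff_nonneg (x : V 22) : 0 ≤ ff x := (ph_nonneg _).trans (ff_ge x)

lemma big : (8 : ℝ) < lam 22 256 := by
  have hsum : ∀ x : V 22, wt x * ph (wt x - 1) + (22 - wt x : ℕ) * ph (wt x + 1)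
      ≤ ∑ i, ff (flip i x) := by
    intro x; rw [← sum_wt]
    exact Finset.sum_le_sum (fun i _ => ff_ge _)
  have hw1 : ff w1 = 1 / 4 := by simp [ff, wt_w1, ph]
  have hpt : ∀ x : V 22, 8 * ff x ^ 2 ≤ ff x * ∑ i, ff (flip i x) := by
    intro x
    have h1 := hsum x
    have h0 := ff_nonneg x
    by_cases hx : x = w1 ∨ x = w2
    · have hw : wt x = 3 := by rcases hx with rfl | rfl; exacts [wt_w1, wt_w2]
      have hf : ff x = 1 / 4 := by unfold ff; rw [if_pos hx, hw]; norm_num [ph]
      rw [hw] at h1
      norm_num [ph] at h1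
      rw [hf]; nlinarith
    · have hf : ff x = ph (wt x) := by unfold ff; rw [if_neg hx, add_zero]
      have h8 : 8 * ff x ≤ ∑ i, ff (flip i x) := by
        refine le_trans ?_ h1
        rw [hf]
        rcases Nat.lt_or_ge (wt x) 3 with h | h
        · interval_cases hwt : wt x <;> norm_num [ph]
        · have : ph (wt x) = 0 := by
            obtain ⟨n, hn⟩ := Nat.exists_eq_add_of_le h
            rw [hn, add_comm]; rfl
          rw [this, mul_zero]
          have a := ph_nonneg (wt x - 1)
          have b := ph_nonneg (wt x + 1)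
          exact add_nonneg (mul_nonneg (Nat.cast_nonneg _) a) (mul_nonneg (Nat.cast_nonneg _) b)
      nlinarith
  refine lam_gt UU card_UU ff ?_ ?_ 8 ?_
  · intro x hx
    have h : ¬ (x = w1 ∨ x = w2) := by
      intro h; apply hx; unfold UU
      rw [Finset.mem_union]; right
      simpa using h
    have h3 : 3 ≤ wt x := by
      by_contra h'
      apply hx; unfold UU
      simp only [Finset.mem_union, Finset.mem_filter, Finset.mem_univ, true_and]
      left; omega
    unfold ff; rw [if_neg h, add_zero]
    obtain ⟨n, hn⟩ := Nat.exists_eq_add_of_le h3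
    rw [hn, add_comm]; rfl
  · refine lt_of_lt_of_le (b := ff w1 ^ 2) ?_
      (Finset.single_le_sum (f := fun y => ff y ^ 2) (fun _ _ => sq_nonneg _)
        (Finset.mem_univ w1))
    rw [hw1]; norm_num
  · rw [Finset.mul_sum]
    refine Finset.sum_lt_sum (fun x _ => hpt x) ⟨w1, Finset.mem_univ _, ?_⟩
    have h1 := hsum w1
    rw [wt_w1] at h1
    norm_num [ph] at h1
    rw [hw1]; nlinarith

lemma lam_zero (d m : ℕ) (h1 : 1 ≤ m) (h2 : m ≤ 2 ^ d) : lam d m ≤ lam (d + 1) m := by
  obtain ⟨⟨U, hU, ht⟩, _⟩ := lam_isGreatest d m h1 h2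
  have : ED d m (lam d m) := ⟨U, hU, ht.1⟩
  obtain ⟨U', hU', h'⟩ := this.zero
  have := le_lam h'
  rwa [hU'] at this

lemma lam_double (d m : ℕ) (h1 : 1 ≤ m) (h2 : m ≤ 2 ^ d) :
    lam d m + 1 ≤ lam (d + 1) (2 * m) := by
  obtain ⟨⟨U, hU, ht⟩, _⟩ := lam_isGreatest d m h1 h2
  have : ED d m (lam d m) := ⟨U, hU, ht.1⟩
  obtain ⟨U', hU', h'⟩ := this.one
  have := le_lam h'
  rwa [hU'] at this

theorem not_cube (k d : ℕ) (hk : 8 ≤ k) (hd : k + 14 ≤ d) : (k : ℝ) < lam d (2 ^ k) := by
  obtain ⟨a, rfl⟩ := Nat.exists_eq_add_of_le hk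
  obtain ⟨b, rfl⟩ := Nat.exists_eq_add_of_le hd
  have h1 : ∀ a : ℕ, ((8 + a : ℕ) : ℝ) < lam (22 + a) (2 ^ (8 + a)) := by
    intro a
    induction a with
    | zero => simpa using big
    | succ n ih =>
      have := lam_double (22 + n) (2 ^ (8 + n)) Nat.one_le_two_pow
        (Nat.pow_le_pow_right (by norm_num) (by omega))
      rw [show 2 * 2 ^ (8 + n) = 2 ^ (8 + (n + 1)) by ring] at this
      rw [show 22 + (n + 1) = 22 + n + 1 by ring]
      push_cast at ih ⊢; linarith
  have h2 : ∀ b : ℕ, lam (22 + a) (2 ^ (8 + a)) ≤ lam (22 + a + b) (2 ^ (8 + a)) := by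
    intro b
    induction b with
    | zero => exact le_refl _
    | succ n ih =>
      exact ih.trans (lam_zero (22 + a + n) (2 ^ (8 + a)) Nat.one_le_two_pow
        (Nat.pow_le_pow_right (by norm_num) (by omega)))
  have := (h1 a).trans_le (h2 b)
  rw [show 8 + a + 14 + b = 22 + a + b by ring]
  exact this

end Pool.Agent.helper65.HC
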