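import Pool.Agent.helper65.HC.Defs

namespace Pool.Agent.helper65.HC
open Finset

/-- Flip the coordinate `i`. -/
def flip {d : ℕ} (i : Fin d) (x : V d) : V d := Function.update x i (!x i)

/-- Antipode. -/
def neg {d : ℕ} (x : V d) : V d := fun i => !x i

@[simp] lemma neg_neg {d : ℕ} (x : V d) : neg (neg x) = x := by
  funext i; simp [neg]

lemma flip_flip {d : ℕ} (i : Fin d) (x : V d) : flip i (flip i x) = x := by
  funext j; unfold flip
  by_cases h : j = i
  · subst h; simp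
  · simp [Function.update_of_ne h]

lemma neg_flip {d : ℕ} (i : Fin d) (x : V d) : neg (flip i x) = flip i (neg x) := by
  funext j; unfold neg flip
  by_cases h : j = i
  · subst h; simp
  · simp [Function.update_of_ne h]

/-- The antipode as an equivalence. -/
def negE (d : ℕ) : V d ≃ V d := ⟨neg, neg, neg_neg, neg_neg⟩

/-- The flip as an equivalence. -/
def flipE {d : ℕ} (i : Fin d) : V d ≃ V d := ⟨flip i, flip i, flip_flip i, flip_flip i⟩

lemma sum_neg {d : ℕ} (F : V d → ℝ) : ∑ x, F (neg x) = ∑ x, F x :=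
  Equiv.sum_comp (negE d) F

lemma sum_flip {d : ℕ} (i : Fin d) (F : V d → ℝ) : ∑ x, F (flip i x) = ∑ x, F x :=
  Equiv.sum_comp (flipE i) F

/-- Dirichlet form. -/
def D {d : ℕ} (f : V d → ℝ) : ℝ := ∑ x, ∑ i, (f x - f (flip i x)) ^ 2

lemma sum_cons {d : ℕ} (F : V (d + 1) → ℝ) :
    ∑ x, F x = (∑ z : V d, F (Fin.cons false z)) + ∑ z : V d, F (Fin.cons true z) := by
  rw [← Equiv.sum_comp (Fin.consEquiv (fun _ : Fin (d + 1) => Bool)) F]
  rw [Fintype.sum_prod_type]
  rw [Fintype.sum_bool, add_comm]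
  rfl

lemma flip_zero_cons {d : ℕ} (b : Bool) (z : V d) :
    flip (0 : Fin (d + 1)) (Fin.cons b z) = Fin.cons (!b) z := by
  funext j
  refine Fin.cases ?_ (fun j => ?_) j
  · simp [flip]
  · simp [flip]

lemma flip_succ_cons {d : ℕ} (i : Fin d) (b : Bool) (z : V d) :
    flip (Fin.succ i) (Fin.cons b z : V (d + 1)) = Fin.cons b (flip i z) := by
  funext j
  refine Fin.cases ?_ (fun j => ?_) j
  · simp [flip, Function.update_of_ne (Fin.succ_ne_zero i).symm]
  · by_cases h : j = i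
    · subst h; simp [flip]
    · have h' : Fin.succ j ≠ Fin.succ i := fun e => h (Fin.succ_injective _ e)
      simp [flip, Function.update_of_ne h, Function.update_of_ne h']

lemma neg_cons {d : ℕ} (b : Bool) (z : V d) :
    neg (Fin.cons b z : V (d + 1)) = Fin.cons (!b) (neg z) := by
  funext j
  refine Fin.cases ?_ (fun j => ?_) j <;> simp [neg]

lemma D_cons {d : ℕ} (f : V (d + 1) → ℝ) :
    D f = D (fun z => f (Fin.cons false z)) + D (fun z => f (Fin.cons true z))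
      + 2 * ∑ z : V d, (f (Fin.cons false z) - f (Fin.cons true z)) ^ 2 := by
  unfold D
  rw [sum_cons]
  simp only [Fin.sum_univ_succ, flip_zero_cons, flip_succ_cons, Bool.not_false, Bool.not_true,
    Finset.sum_add_distrib]
  have : ∑ z : V d, (f (Fin.cons true z) - f (Fin.cons false z)) ^ 2
      = ∑ z : V d, (f (Fin.cons false z) - f (Fin.cons true z)) ^ 2 :=
    Finset.sum_congr rfl (fun z _ => by ring)
  rw [this]; ring

lemma cs_card {d : ℕ} (g : V d → ℝ) : (∑ x, g x) ^ 2 ≤ 2 ^ d * ∑ x, g x ^ 2 := by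
  have h := sq_sum_le_card_mul_sum_sq (s := (univ : Finset (V d))) (f := g)
  have hc : ((univ : Finset (V d)).card : ℝ) = 2 ^ d := by
    simp [Finset.card_univ]
  rw [hc] at h
  exact h

/-- Poincare inequality. -/
theorem poincare : ∀ (d : ℕ) (f : V d → ℝ),
    4 * ∑ x, f x ^ 2 ≤ D f + 4 * (∑ x, f x) ^ 2 / 2 ^ d
  | 0, f => by
    have : D f = 0 := by unfold D; simp
    rw [this]
    simp
  | d + 1, f => by
    have h0 := poincare d (fun z => f (Fin.cons false z))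
    have h1 := poincare d (fun z => f (Fin.cons true z))
    have hc := cs_card (d := d) (fun z => f (Fin.cons false z) - f (Fin.cons true z))
    rw [D_cons, sum_cons, sum_cons]
    rw [Finset.sum_sub_distrib] at hc
    set a := ∑ z : V d, f (Fin.cons false z)
    set b := ∑ z : V d, f (Fin.cons true z)
    set s := ∑ z : V d, (f (Fin.cons false z) - f (Fin.cons true z)) ^ 2
    have hp : (0 : ℝ) < 2 ^ d := by positivity
    have hc' : (a - b) ^ 2 / 2 ^ d ≤ s := by
      rw [div_le_iff₀ hp]; linarith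
    have e : 4 * (a + b) ^ 2 / 2 ^ (d + 1) = 4 * a ^ 2 / 2 ^ d + 4 * b ^ 2 / 2 ^ d
        - 2 * ((a - b) ^ 2 / 2 ^ d) := by
      rw [pow_succ]; field_simp; ring
    rw [e]; linarith

/-- Even functions. -/
def Even' {d : ℕ} (f : V d → ℝ) : Prop := ∀ x, f (neg x) = f x
/-- Odd functions. -/
def Odd' {d : ℕ} (f : V d → ℝ) : Prop := ∀ x, f (neg x) = - f x

/-- Even part. -/
noncomputable def ev {d : ℕ} (f : V d → ℝ) : V d → ℝ := fun x => (f x + f (neg x)) / 2
/-- Odd part. -/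
noncomputable def od {d : ℕ} (f : V d → ℝ) : V d → ℝ := fun x => (f x - f (neg x)) / 2

lemma ev_even {d : ℕ} (f : V d → ℝ) : Even' (ev f) := fun x => by
  unfold ev; rw [neg_neg]; ring
lemma od_odd {d : ℕ} (f : V d → ℝ) : Odd' (od f) := fun x => by
  unfold od; rw [neg_neg]; ring

lemma D_neg {d : ℕ} (f : V d → ℝ) : D (fun x => f (neg x)) = D f := by
  unfold D
  rw [← sum_neg (fun x => ∑ i, (f x - f (flip i x)) ^ 2)]
  simp only [neg_flip]

lemma D_split {d : ℕ} (f : V d → ℝ) : D f = D (ev f) + D (od f) := by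
  have h : D (ev f) + D (od f) = (D f + D (fun x => f (neg x))) / 2 := by
    unfold D
    rw [← Finset.sum_add_distrib, ← Finset.sum_add_distrib, Finset.sum_div]
    refine Finset.sum_congr rfl (fun x _ => ?_)
    rw [← Finset.sum_add_distrib, ← Finset.sum_add_distrib, Finset.sum_div]
    refine Finset.sum_congr rfl (fun i _ => ?_)
    unfold ev od; ring
  rw [h, D_neg]; ring

lemma sq_split {d : ℕ} (f : V d → ℝ) :
    ∑ x, f x ^ 2 = ∑ x, ev f x ^ 2 + ∑ x, od f x ^ 2 := by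
  have h : ∑ x, ev f x ^ 2 + ∑ x, od f x ^ 2 = (∑ x, f x ^ 2 + ∑ x, f (neg x) ^ 2) / 2 := by
    rw [← Finset.sum_add_distrib, ← Finset.sum_add_distrib, Finset.sum_div]
    refine Finset.sum_congr rfl (fun x _ => ?_)
    unfold ev od; ring
  rw [h, sum_neg (fun x => f x ^ 2)]; ring

lemma sum_ev {d : ℕ} (f : V d → ℝ) : ∑ x, ev f x = ∑ x, f x := by
  unfold ev
  rw [← Finset.sum_div, Finset.sum_add_distrib, sum_neg f]; ring

lemma sum_odd {d : ℕ} (f : V d → ℝ) (hf : Odd' f) : ∑ x, f x = 0 := by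
  have h := sum_neg f
  simp only [hf _] at h
  rw [Finset.sum_neg_distrib] at h
  linarith

/-- Gap `4` on even functions. -/
theorem even_gap : ∀ (d : ℕ) (f : V d → ℝ), Even' f →
    8 * ∑ x, f x ^ 2 ≤ D f + 8 * (∑ x, f x) ^ 2 / 2 ^ d
  | 0, f, _ => by
    have : D f = 0 := by unfold D; simp
    rw [this]
    simp
  | d + 1, f, hf => by
    set h : V d → ℝ := fun z => f (Fin.cons false z) with hh
    have ht : ∀ z, f (Fin.cons true z) = h (neg z) := fun z => by
      rw [← hf (Fin.cons true z), neg_cons]; rfl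
    have hD : D f = 2 * D h + 2 * ∑ z, (h z - h (neg z)) ^ 2 := by
      rw [D_cons]
      simp only [ht]
      rw [D_neg h]; ring
    have hs : ∑ x, f x ^ 2 = 2 * ∑ z, h z ^ 2 := by
      rw [sum_cons]; simp only [ht]; rw [sum_neg (fun z => h z ^ 2)]; ring
    have hm : ∑ x, f x = 2 * ∑ z, h z := by
      rw [sum_cons]; simp only [ht]; rw [sum_neg h]; ring
    have h1 := even_gap d (ev h) (ev_even h)
    have h2 := poincare d (od h)
    rw [sum_odd (od h) (od_odd h)] at h2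
    rw [sum_ev] at h1
    have h3 := sq_split h
    have h4 := D_split h
    have h5 : ∑ z, (h z - h (neg z)) ^ 2 = 4 * ∑ z, od h z ^ 2 := by
      rw [Finset.mul_sum]; refine Finset.sum_congr rfl (fun x _ => ?_); unfold od; ring
    rw [hD, hs, hm, h5]
    have e : 8 * (2 * ∑ z, h z) ^ 2 / 2 ^ (d + 1) = 2 * (8 * (∑ z, h z) ^ 2 / 2 ^ d) := by
      rw [pow_succ]; field_simp; ring
    rw [e, h3, h4]
    have h6 : (4 : ℝ) * 0 ^ 2 / 2 ^ d = 0 := by simp
    rw [h6] at h2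
    linarith

lemma D_abs {d : ℕ} (f : V d → ℝ) : D (fun x => |f x|) ≤ D f := by
  unfold D
  refine Finset.sum_le_sum (fun x _ => Finset.sum_le_sum (fun i _ => ?_))
  exact sq_le_sq.2 (abs_abs_sub_abs_le _ _)

lemma D_nonneg {d : ℕ} (f : V d → ℝ) : 0 ≤ D f := by
  unfold D; positivity

/-- odd functions. -/
theorem odd_gap {d : ℕ} (f : V d → ℝ) (hf : Odd' f) :
    8 * ∑ x, f x ^ 2 ≤ D f + 8 * (∑ x, |f x|) ^ 2 / 2 ^ d := by
  have h := even_gap d (fun x => |f x|) (fun x => by simp [hf x])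
  simp only [sq_abs] at h
  have := D_abs f
  linarith

theorem odd_gap2 {d : ℕ} (f : V d → ℝ) (hf : Odd' f) :
    4 * ∑ x, f x ^ 2 ≤ D f := by
  have h := poincare d f
  rw [sum_odd f hf] at h
  have h6 : (4 : ℝ) * 0 ^ 2 / 2 ^ d = 0 := by simp
  rw [h6] at h; linarith

lemma sum_abs_od {d : ℕ} (f : V d → ℝ) (h0 : ∀ x, 0 ≤ f x) : ∑ x, |od f x| ≤ ∑ x, f x := by
  rw [← sum_ev f]
  refine Finset.sum_le_sum (fun x _ => ?_)
  unfold od ev
  have h1 := h0 x; have h2 := h0 (neg x)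
  rw [abs_le]; constructor <;> linarith

/-- third inequality. -/
theorem T2 {d : ℕ} (f : V d → ℝ) :
    8 * ∑ x, f x ^ 2 ≤ D f + 16 * (∑ x, |f x|) ^ 2 / 2 ^ d := by
  set g : V d → ℝ := fun x => |f x| with hg
  have h0 : ∀ x, 0 ≤ g x := fun x => abs_nonneg _
  have hs : ∑ x, f x ^ 2 = ∑ x, g x ^ 2 := by simp [hg]
  have h1 := even_gap d (ev g) (ev_even g)
  have h2 := odd_gap (od g) (od_odd g)
  have h3 := sum_abs_od g h0
  have h4 : 0 ≤ ∑ x, |od g x| := Finset.sum_nonneg (fun _ _ => abs_nonneg _)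
  have h5 : (∑ x, |od g x|) ^ 2 ≤ (∑ x, g x) ^ 2 := by gcongr
  have h6 := D_abs f
  have h7 := D_split g
  have h8 := sq_split g
  rw [sum_ev] at h1
  have hp : (0 : ℝ) < 2 ^ d := by positivity
  have h9 : 8 * (∑ x, |od g x|) ^ 2 / 2 ^ d ≤ 8 * (∑ x, g x) ^ 2 / 2 ^ d := by gcongr
  rw [hs, h8]
  have e : 16 * (∑ x, |f x|) ^ 2 / 2 ^ d = 8 * (∑ x, g x) ^ 2 / 2 ^ d + 8 * (∑ x, g x) ^ 2 / 2 ^ d := by
    simp only [hg]; ring
  rw [e]
  linarith

lemma od_le_half {d : ℕ} (g : V d → ℝ) (h0 : ∀ x, 0 ≤ g x) :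
    2 * ∑ x, od g x ^ 2 ≤ ∑ x, g x ^ 2 := by
  rw [sq_split g]
  have : ∑ x, od g x ^ 2 ≤ ∑ x, ev g x ^ 2 := by
    refine Finset.sum_le_sum (fun x _ => ?_)
    unfold od ev
    have h1 := h0 x; have h2 := h0 (neg x)
    nlinarith [mul_nonneg h1 h2]
  linarith

/-- combination used for the dense range -/
theorem T1' {d : ℕ} (f : V d → ℝ) :
    8 * ∑ x, f x ^ 2 ≤ D f + 4 * ∑ x, od (fun x => |f x|) x ^ 2 + 8 * (∑ x, |f x|) ^ 2 / 2 ^ d := by
  set g : V d → ℝ := fun x => |f x| with hg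
  have hs : ∑ x, f x ^ 2 = ∑ x, g x ^ 2 := by simp [hg]
  have h1 := even_gap d (ev g) (ev_even g)
  have h2 := odd_gap2 (od g) (od_odd g)
  have h6 := D_abs f
  have h7 := D_split g
  have h8 := sq_split g
  rw [sum_ev] at h1
  rw [hs, h8]
  linarith

theorem T1 {d : ℕ} (f : V d → ℝ) :
    6 * ∑ x, f x ^ 2 ≤ D f + 8 * (∑ x, |f x|) ^ 2 / 2 ^ d := by
  have h := T1' f
  have h2 := od_le_half (fun x => |f x|) (fun x => abs_nonneg _)
  simp only [sq_abs] at h2
  linarith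

theorem T0 {d : ℕ} (f : V d → ℝ) :
    4 * ∑ x, f x ^ 2 ≤ D f + 4 * (∑ x, |f x|) ^ 2 / 2 ^ d := by
  have h := poincare d (fun x => |f x|)
  simp only [sq_abs] at h
  have := D_abs f
  linarith

end Pool.Agent.helper65.HC
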