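import Mathlib

namespace Pool.Agent.helper65.HC
open Finset

/-- Vertices of the cube `Q_d`: binary strings of length `d`. -/
abbrev V (d : ℕ) := Fin d → Bool

/-- The hypercube graph `Q_d`: adjacent iff the strings differ in exactly one coordinate. -/
def cube (d : ℕ) : SimpleGraph (V d) where
  Adj x y := hammingDist x y = 1
  symm := ⟨fun x y h => by rw [hammingDist_comm]; exact h⟩
  loopless := ⟨fun x h => by simp at h⟩

instance (d : ℕ) : DecidableRel (cube d).Adj := fun x y =>
  inferInstanceAs (Decidable (hammingDist x y = 1))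

/-- The subgraph of `Q_d` induced on `U`. -/
abbrev sub {d : ℕ} (U : Finset (V d)) : SimpleGraph U := (cube d).induce (U : Set (V d))

instance decSub {d : ℕ} (U : Finset (V d)) : DecidableRel (sub U).Adj := fun a b =>
  inferInstanceAs (Decidable ((cube d).Adj a.1 b.1))

/-- `μ` is an eigenvalue of the adjacency matrix of the graph induced on `U`. -/
def IsEig {d : ℕ} (U : Finset (V d)) (μ : ℝ) : Prop :=
  ∃ v : U → ℝ, v ≠ 0 ∧ ∀ x, Matrix.mulVec ((sub U).adjMatrix ℝ) v x = μ * v x

/-- `μ` is the largest eigenvalue of the graph induced on `U`. -/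
def IsTop {d : ℕ} (U : Finset (V d)) (μ : ℝ) : Prop := IsGreatest {t | IsEig U t} μ

/-- `λ_d(m)`: the largest top eigenvalue of a subgraph of `Q_d` induced on `m` vertices. -/
noncomputable def lam (d m : ℕ) : ℝ := sSup {t | ∃ U : Finset (V d), U.card = m ∧ IsTop U t}

end Pool.Agent.helper65.HC
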