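import Pool.Agent.helper65.HC.Basic

namespace Pool.Agent.helper65.HC
open Finset

lemma supp_cs {d : ℕ} (U : Finset (V d)) (f : V d → ℝ) (hf : ∀ x, x ∉ U → f x = 0) :
    (∑ x, |f x|) ^ 2 ≤ U.card * ∑ x, f x ^ 2 := by
  have e1 : ∑ x, |f x| = ∑ x ∈ U, |f x| := by
    symm; refine Finset.sum_subset (Finset.subset_univ _) (fun x _ hx => by simp [hf x hx])
  have e2 : ∑ x, f x ^ 2 = ∑ x ∈ U, |f x| ^ 2 := by
    symm; simp only [sq_abs]
    refine Finset.sum_subset (Finset.subset_univ _) (fun x _ hx => by simp [hf x hx])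
  rw [e1, e2]
  exact sq_sum_le_card_mul_sum_sq

/-- the constant of the dense range -/
noncomputable def kap (b : ℝ) : ℝ := (5 - 4 * b + √(9 - 8 * b + 16 * b ^ 2)) / 2

lemma kap_eq (b : ℝ) : kap b ^ 2 - (5 - 4 * b) * kap b + 4 * (1 - 2 * b) = 0 := by
  unfold kap
  have h : 0 ≤ 9 - 8 * b + 16 * b ^ 2 := by nlinarith [sq_nonneg (4 * b - 1)]
  have hs := Real.sq_sqrt h
  nlinarith [hs]

lemma kap_ge (b : ℝ) (h0 : 0 ≤ b) (h1 : b ≤ 1 / 2) : 3 ≤ kap b := by
  unfold kap
  have h : 1 + 4 * b ≤ √(9 - 8 * b + 16 * b ^ 2) := by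
    apply Real.le_sqrt_of_sq_le; nlinarith
  linarith

/-- the dense inequality: `f` supported on `U`, `β = 1 - |U|/2^d ≤ 1/2`. -/
theorem dense {d : ℕ} (U : Finset (V d)) (f : V d → ℝ) (hf : ∀ x, x ∉ U → f x = 0)
    (b : ℝ) (hb : (U.card : ℝ) = (1 - b) * 2 ^ d) (hb0 : 0 ≤ b) (hb1 : b ≤ 1 / 2) :
    (8 - 2 * kap b) * ∑ x, f x ^ 2 ≤ D f := by
  classical
  have hT := T1' f
  set g : V d → ℝ := fun x => |f x| with hg
  have hg0 : ∀ x, x ∉ U → g x = 0 := fun x hx => by simp [hg, hf x hx]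
  have hs : ∑ x, f x ^ 2 = ∑ x, g x ^ 2 := by simp [hg]
  set k := kap b with hk
  have hk3 : 3 ≤ k := kap_ge b hb0 hb1
  have hp : (0 : ℝ) < 2 ^ d := by positivity
  -- weights
  set w : V d → ℝ := fun x => if neg x ∈ U then k else k - 1 with hw
  set a : V d → ℝ := fun x => if neg x ∈ U then ev g x else g x with ha
  have hwpos : ∀ x, 0 < w x := fun x => by
    simp only [hw]; split_ifs <;> linarith
  -- sum of a over U
  have hsum : ∑ x ∈ U, a x = ∑ x, g x := by
    have h1 : ∑ x, g x = ∑ x ∈ U, g x := by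
      symm; exact Finset.sum_subset (Finset.subset_univ _) (fun x _ hx => hg0 x hx)
    rw [h1]
    have h2 : ∀ G : V d → ℝ, ∑ x ∈ U, G x
        = ∑ x ∈ U.filter (fun x => neg x ∈ U), G x + ∑ x ∈ U.filter (fun x => ¬ neg x ∈ U), G x :=
      fun G => (Finset.sum_filter_add_sum_filter_not _ _ _).symm
    rw [h2 a, h2 g]
    congr 1
    · have e1 : ∑ x ∈ U.filter (fun x => neg x ∈ U), a x
          = ∑ x ∈ U.filter (fun x => neg x ∈ U), (g x + g (neg x)) / 2 := by
        refine Finset.sum_congr rfl (fun x hx => ?_)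
        simp only [Finset.mem_filter] at hx
        simp [ha, hx.2, ev]
      have e2 : ∑ x ∈ U.filter (fun x => neg x ∈ U), g (neg x)
          = ∑ x ∈ U.filter (fun x => neg x ∈ U), g x := by
        refine Finset.sum_bij' (fun x _ => neg x) (fun x _ => neg x) ?_ ?_ ?_ ?_ ?_ <;>
          simp_all
      rw [e1, ← Finset.sum_div, Finset.sum_add_distrib, e2]; ring
    · refine Finset.sum_congr rfl (fun x hx => ?_)
      simp only [Finset.mem_filter] at hx
      simp [ha, hx.2]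
  -- weighted Cauchy-Schwarz
  have hcs : (∑ x ∈ U, a x) ^ 2 ≤ (∑ x ∈ U, 1 / w x) * ∑ x ∈ U, w x * a x ^ 2 := by
    have h := Finset.sum_mul_sq_le_sq_mul_sq U (fun x => 1 / √(w x)) (fun x => √(w x) * a x)
    have e0 : ∑ x ∈ U, 1 / √(w x) * (√(w x) * a x) = ∑ x ∈ U, a x :=
      Finset.sum_congr rfl (fun x _ => by
        have := Real.sqrt_pos.2 (hwpos x); field_simp)
    have e1 : ∑ x ∈ U, (1 / √(w x)) ^ 2 = ∑ x ∈ U, 1 / w x :=
      Finset.sum_congr rfl (fun x _ => by
        rw [div_pow, Real.sq_sqrt (hwpos x).le]; simp)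
    have e2 : ∑ x ∈ U, (√(w x) * a x) ^ 2 = ∑ x ∈ U, w x * a x ^ 2 :=
      Finset.sum_congr rfl (fun x _ => by
        rw [mul_pow, Real.sq_sqrt (hwpos x).le])
    rw [e0, e1, e2] at h; exact h
  -- sum of reciprocal weights
  set P : ℝ := ((U.filter (fun x => neg x ∈ U)).card : ℝ) with hP
  set S : ℝ := ((U.filter (fun x => ¬ neg x ∈ U)).card : ℝ) with hS
  have hPS : P + S = (1 - b) * 2 ^ d := by
    rw [← hb, hP, hS]; exact_mod_cast Finset.card_filter_add_card_filter_not (s := U) _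
  have hSle : S ≤ b * 2 ^ d := by
    -- neg maps the second class into the complement of U
    have h1 : (U.filter (fun x => ¬ neg x ∈ U)).card ≤ (Uᶜ).card := by
      refine Finset.card_le_card_of_injOn neg ?_ ?_
      · intro x hx; simp only [Finset.coe_filter, Set.mem_setOf_eq] at hx
        simp [hx.2]
      · intro x _ y _ h; have := congrArg neg h; simpa using this
    have h2 : ((Uᶜ).card : ℝ) = b * 2 ^ d := by
      rw [Finset.card_compl, Nat.cast_sub (Finset.card_le_univ U), hb]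
      simp; ring
    rw [hS, ← h2]; exact_mod_cast h1
  have hrec : ∑ x ∈ U, 1 / w x = P / k + S / (k - 1) := by
    rw [← Finset.sum_filter_add_sum_filter_not U (fun x => neg x ∈ U)]
    congr 1
    · rw [Finset.sum_congr rfl (g := fun _ => 1 / k)]
      · rw [Finset.sum_const, nsmul_eq_mul, hP]; ring
      · intro x hx; simp only [Finset.mem_filter] at hx; simp [hw, hx.2]
    · rw [Finset.sum_congr rfl (g := fun _ => 1 / (k - 1))]
      · rw [Finset.sum_const, nsmul_eq_mul, hS]; ring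
      · intro x hx; simp only [Finset.mem_filter] at hx; simp [hw, hx.2]
  have hrec' : 4 * (∑ x ∈ U, 1 / w x) ≤ 2 ^ d := by
    rw [hrec]
    have hk1 : (0 : ℝ) < k := by linarith
    have hk2 : (0 : ℝ) < k - 1 := by linarith
    have e : P / k + S / (k - 1) = ((P + S) * (k - 1) + S) / (k * (k - 1)) := by
      field_simp; ring
    rw [e, hPS]
    have hq := kap_eq b
    rw [← hk] at hq
    have h3 : ((1 - b) * 2 ^ d * (k - 1) + S) ≤ 2 ^ d * ((1 - b) * (k - 1) + b) := by
      nlinarith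
    have h4 : 4 * ((1 - b) * (k - 1) + b) = k * (k - 1) := by linarith
    rw [← mul_div_assoc, div_le_iff₀ (by positivity)]
    have h5 : 4 * ((1 - b) * 2 ^ d * (k - 1) + S) ≤ 2 ^ d * (4 * ((1 - b) * (k - 1) + b)) := by
      linarith
    rw [h4] at h5; linarith
  have hA : 0 ≤ ∑ x ∈ U, w x * a x ^ 2 :=
    Finset.sum_nonneg (fun x _ => mul_nonneg (hwpos x).le (sq_nonneg _))
  have hmain : 8 * (∑ x, g x) ^ 2 / 2 ^ d ≤ 2 * ∑ x ∈ U, w x * a x ^ 2 := by
    rw [← hsum, div_le_iff₀ hp]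
    nlinarith
  -- pointwise comparison
  have hod : 4 * ∑ x, od g x ^ 2 + 2 * ∑ x ∈ U, w x * a x ^ 2 ≤ 2 * k * ∑ x, g x ^ 2 := by
    have e1 : 4 * ∑ x, od g x ^ 2 = ∑ x, (g x - g (neg x)) ^ 2 := by
      rw [Finset.mul_sum]; refine Finset.sum_congr rfl (fun x _ => ?_); unfold od; ring
    have e2 : ∑ x ∈ U, w x * a x ^ 2 = ∑ x, (if x ∈ U then w x * a x ^ 2 else 0) := by
      rw [Finset.sum_ite_mem]; simp
    -- symmetrise
    have e3 : ∑ x, (if x ∈ U then w x * a x ^ 2 else 0)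
        = (∑ x, ((if x ∈ U then w x * a x ^ 2 else 0)
          + (if neg x ∈ U then w (neg x) * a (neg x) ^ 2 else 0))) / 2 := by
      rw [Finset.sum_add_distrib, sum_neg (fun x => if x ∈ U then w x * a x ^ 2 else 0)]; ring
    have e4 : ∑ x, g x ^ 2 = (∑ x, (g x ^ 2 + g (neg x) ^ 2)) / 2 := by
      rw [Finset.sum_add_distrib, sum_neg (fun x => g x ^ 2)]; ring
    rw [e1, e2, e3, e4]
    rw [show ∀ A B C : ℝ, (A + 2 * (B / 2) ≤ 2 * k * (C / 2)) = (A + B ≤ k * C) from
      fun A B C => by congr 1 <;> ring]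
    rw [Finset.mul_sum, ← Finset.sum_add_distrib]
    refine Finset.sum_le_sum (fun x _ => ?_)
    by_cases h1 : x ∈ U <;> by_cases h2 : neg x ∈ U
    · simp only [hw, ha, h1, h2, neg_neg, if_true, ev]
      nlinarith [sq_nonneg (g x - g (neg x))]
    · have := hg0 _ h2
      simp only [hw, ha, h1, h2, neg_neg, if_true, if_false, this]
      nlinarith
    · have := hg0 _ h1
      simp only [hw, ha, h1, h2, neg_neg, if_true, if_false, this]
      nlinarith
    · have := hg0 _ h1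
      have := hg0 _ h2
      simp_all
  rw [hs] at hT ⊢
  linarith

end Pool.Agent.helper65.HC
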