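import Pool.Agent.helper65.HC.Dense

namespace Pool.Agent.helper65.HC
open Finset

lemma adj_iff {d : ℕ} (x y : V d) : (cube d).Adj x y ↔ ∃ i, y = flip i x := by
  show hammingDist x y = 1 ↔ _
  unfold hammingDist
  rw [Finset.card_eq_one]
  constructor
  · rintro ⟨i, hi⟩
    refine ⟨i, ?_⟩
    funext j
    by_cases h : j = i
    · subst h
      have : j ∈ ({j} : Finset (Fin d)) := by simp
      rw [← hi] at this
      simp only [Finset.mem_filter, Finset.mem_univ, true_and] at this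
      simp only [flip, Function.update_self]
      cases hx : x j <;> cases hy : y j <;> simp_all
    · have : j ∉ ({i} : Finset (Fin d)) := by simp [h]
      rw [← hi] at this
      simp only [Finset.mem_filter, Finset.mem_univ, true_and, not_not] at this
      simp [flip, Function.update_of_ne h, this]
  · rintro ⟨i, rfl⟩
    refine ⟨i, ?_⟩
    ext j
    simp only [Finset.mem_filter, Finset.mem_univ, true_and, Finset.mem_singleton]
    by_cases h : j = i
    · subst h; simp [flip]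
    · simp [flip, h]

lemma flip_inj {d : ℕ} (x : V d) : Function.Injective (fun i => flip i x) := by
  intro i j h
  by_contra hne
  have h1 := congrFun h i
  simp [flip, Function.update_of_ne hne] at h1

lemma sum_adj {d : ℕ} (x : V d) (F : V d → ℝ) :
    ∑ y, (if (cube d).Adj x y then F y else 0) = ∑ i, F (flip i x) := by
  rw [← Finset.sum_filter]
  symm
  refine Finset.sum_bij (fun i _ => flip i x) ?_ ?_ ?_ ?_
  · intro i _; simp only [Finset.mem_filter, Finset.mem_univ, true_and]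
    exact (adj_iff _ _).2 ⟨i, rfl⟩
  · intro i _ j _ h; exact flip_inj x h
  · intro y hy
    simp only [Finset.mem_filter, Finset.mem_univ, true_and] at hy
    obtain ⟨i, rfl⟩ := (adj_iff _ _).1 hy
    exact ⟨i, Finset.mem_univ _, rfl⟩
  · intro i _; rfl

/-- Extension by zero. -/
def ext {d : ℕ} (U : Finset (V d)) (v : U → ℝ) : V d → ℝ :=
  fun x => if h : x ∈ U then v ⟨x, h⟩ else 0

lemma mulVec_eq {d : ℕ} (U : Finset (V d)) (v : U → ℝ) (x : U) :
    Matrix.mulVec ((sub U).adjMatrix ℝ) v x = ∑ i, ext U v (flip i x) := by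
  rw [← sum_adj x.1 (ext U v)]
  unfold Matrix.mulVec dotProduct
  have e : ∀ y : U, (sub U).adjMatrix ℝ x y * v y
      = (fun z : V d => if (cube d).Adj x.1 z then ext U v z else 0) y.1 := by
    intro y
    simp only [SimpleGraph.adjMatrix_apply, SimpleGraph.comap_adj,
      Function.Embedding.subtype_apply]
    by_cases h : (cube d).Adj x.1 y.1
    · simp [h, ext]
    · simp [h]
  rw [Finset.sum_congr rfl (fun y _ => e y)]
  rw [Finset.sum_coe_sort U (fun z : V d => if (cube d).Adj x.1 z then ext U v z else 0)]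
  refine Finset.sum_subset (Finset.subset_univ _) (fun z _ hz => ?_)
  simp [ext, hz]

lemma D_eq {d : ℕ} (f : V d → ℝ) :
    D f = 2 * d * ∑ x, f x ^ 2 - 2 * ∑ x, f x * ∑ i, f (flip i x) := by
  unfold D
  have h1 : ∀ i : Fin d, ∑ x, f (flip i x) ^ 2 = ∑ x, f x ^ 2 := fun i =>
    sum_flip i (fun x => f x ^ 2)
  have e : ∑ x, ∑ i, (f x - f (flip i x)) ^ 2
      = ∑ x, ∑ i : Fin d, f x ^ 2 + ∑ i : Fin d, ∑ x, f (flip i x) ^ 2
        - 2 * ∑ x, f x * ∑ i, f (flip i x) := by
    rw [Finset.sum_comm (f := fun (i : Fin d) x => f (flip i x) ^ 2), ← Finset.sum_add_distrib,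
      Finset.mul_sum, ← Finset.sum_sub_distrib]
    refine Finset.sum_congr rfl (fun x _ => ?_)
    rw [Finset.mul_sum, Finset.mul_sum, ← Finset.sum_add_distrib, ← Finset.sum_sub_distrib]
    refine Finset.sum_congr rfl (fun i _ => ?_)
    ring
  rw [e]
  simp only [h1, Finset.sum_const, Finset.card_univ, Fintype.card_fin, nsmul_eq_mul,
    ← Finset.mul_sum]
  ring

/-- the quadratic form of an eigenfunction -/
lemma eig_D {d : ℕ} {U : Finset (V d)} {μ : ℝ} (h : IsEig U μ) :
    ∃ f : V d → ℝ, (∀ x, x ∉ U → f x = 0) ∧ 0 < ∑ x, f x ^ 2 ∧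
      D f = 2 * (d - μ) * ∑ x, f x ^ 2 := by
  obtain ⟨v, hv0, hv1⟩ := h
  refine ⟨ext U v, fun x hx => by simp [ext, hx], ?_, ?_⟩
  · obtain ⟨x, hx⟩ := Function.ne_iff.1 hv0
    refine lt_of_lt_of_le (b := ext U v x.1 ^ 2) ?_
      (Finset.single_le_sum (f := fun y => ext U v y ^ 2) (fun _ _ => sq_nonneg _)
        (Finset.mem_univ x.1))
    have : ext U v x.1 = v x := by simp [ext]
    rw [this]
    have hx' : v x ≠ 0 := by simpa using hx
    positivity
  · rw [D_eq]
    have h2 : ∑ x, ext U v x * ∑ i, ext U v (flip i x) = μ * ∑ x, ext U v x ^ 2 := by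
      rw [Finset.mul_sum]
      refine Finset.sum_congr rfl (fun x _ => ?_)
      by_cases hx : x ∈ U
      · have := hv1 ⟨x, hx⟩
        rw [mulVec_eq] at this
        rw [this]; simp [ext, hx]; ring
      · simp [ext, hx]
    rw [h2]; ring

theorem upper {d : ℕ} {U : Finset (V d)} {μ : ℝ} (h : IsEig U μ) :
    μ ≤ d - 2 + 2 * (U.card / 2 ^ d) ∧ μ ≤ d - 3 + 4 * (U.card / 2 ^ d) ∧
      μ ≤ d - 4 + 8 * (U.card / 2 ^ d) := by
  obtain ⟨f, hf, hpos, hD⟩ := eig_D h
  have hcs := supp_cs U f hf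
  have hp : (0 : ℝ) < 2 ^ d := by positivity
  have hcs' : (∑ x, |f x|) ^ 2 / 2 ^ d ≤ (U.card / 2 ^ d) * ∑ x, f x ^ 2 := by
    rw [div_mul_eq_mul_div]; gcongr
  have t0 := T0 f
  have t1 := T1 f
  have t2 := T2 f
  rw [hD] at t0 t1 t2
  set n := ∑ x, f x ^ 2
  set q := (U.card : ℝ) / 2 ^ d
  set s := (∑ x, |f x|) ^ 2 / 2 ^ d
  rw [mul_div_assoc] at t0 t1 t2
  refine ⟨?_, ?_, ?_⟩
  · have : 0 ≤ (2 * (d - μ) + 4 * q - 4) * n := by nlinarith
    have := nonneg_of_mul_nonneg_left this hpos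
    linarith
  · have : 0 ≤ (2 * (d - μ) + 8 * q - 6) * n := by nlinarith
    have := nonneg_of_mul_nonneg_left this hpos
    linarith
  · have : 0 ≤ (2 * (d - μ) + 16 * q - 8) * n := by nlinarith
    have := nonneg_of_mul_nonneg_left this hpos
    linarith

theorem upper_dense {d : ℕ} {U : Finset (V d)} {μ : ℝ} (h : IsEig U μ) (b : ℝ)
    (hb : (U.card : ℝ) = (1 - b) * 2 ^ d) (hb0 : 0 ≤ b) (hb1 : b ≤ 1 / 2) :
    μ ≤ d - 3 / 2 - 2 * b + √(9 - 8 * b + 16 * b ^ 2) / 2 := by
  obtain ⟨f, hf, hpos, hD⟩ := eig_D h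
  have t := dense U f hf b hb hb0 hb1
  rw [hD] at t
  have := le_of_mul_le_mul_right t hpos
  unfold kap at this
  linarith

/-- to exhibit an eigenvalue: a function supported on `U` satisfying the eigenvalue equation on
`U` -/
lemma isEig_of {d : ℕ} (U : Finset (V d)) (f : V d → ℝ) (μ : ℝ)
    (hf : ∀ x, x ∉ U → f x = 0) (hne : ∃ x, f x ≠ 0)
    (he : ∀ x ∈ U, ∑ i, f (flip i x) = μ * f x) : IsEig U μ := by
  have hext : ext U (fun x : U => f x.1) = f := by
    funext x
    by_cases hx : x ∈ U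
    · simp [ext, hx]
    · simp [ext, hx, hf x hx]
  refine ⟨fun x : U => f x.1, ?_, fun x => ?_⟩
  · obtain ⟨x, hx⟩ := hne
    intro h0
    have hxU : x ∈ U := by by_contra h; exact hx (hf x h)
    exact hx (congrFun h0 ⟨x, hxU⟩)
  · rw [mulVec_eq, hext]
    simp [he x.1 x.2]

end Pool.Agent.helper65.HC
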