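import Pool.Agent.helper65.HC.Spec

namespace Pool.Agent.helper65.HC
open Finset

lemma toEig {n : Type*} [Fintype n] [DecidableEq n] (A : Matrix n n ℝ) (μ : ℝ) :
    Module.End.HasEigenvalue (Matrix.toLin' A) μ ↔ ∃ v : n → ℝ, v ≠ 0 ∧ A.mulVec v = μ • v := by
  constructor
  · intro h
    obtain ⟨v, hv⟩ := h.exists_hasEigenvector
    exact ⟨v, hv.2, by simpa [Matrix.toLin'_apply] using hv.apply_eq_smul⟩
  · rintro ⟨v, hv0, hv⟩
    refine Module.End.hasEigenvalue_of_hasEigenvector (x := v) ?_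
    rw [Module.End.hasEigenvector_iff, Module.End.mem_eigenspace_iff]
    exact ⟨by rw [Matrix.toLin'_apply, hv], hv0⟩

lemma eig_iff {n : Type*} [Fintype n] [DecidableEq n] (A : Matrix n n ℝ)
    (hA : A.IsHermitian) (μ : ℝ) :
    Module.End.HasEigenvalue (Matrix.toLin' A) μ ↔ μ ∈ Set.range hA.eigenvalues := by
  rw [Module.End.hasEigenvalue_iff_mem_spectrum, Matrix.spectrum_toLin',
    hA.spectrum_real_eq_range_eigenvalues]

/-- a real symmetric matrix has a largest eigenvalue, and it bounds the quadratic form. -/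
lemma exists_top {n : Type*} [Fintype n] [DecidableEq n] [Nonempty n] (A : Matrix n n ℝ)
    (hA : A.IsHermitian) :
    ∃ t, IsGreatest {t | Module.End.HasEigenvalue (Matrix.toLin' A) t} t ∧
      ∀ v : n → ℝ, dotProduct v (A.mulVec v) ≤ t * dotProduct v v := by
  obtain ⟨i0, hi0⟩ := Finite.exists_max (fun i => hA.eigenvalues i)
  have hE := eig_iff A hA
  set t := hA.eigenvalues i0 with ht
  have hub : ∀ s, Module.End.HasEigenvalue (Matrix.toLin' A) s → s ≤ t := by
    intro s hs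
    rw [hE] at hs
    obtain ⟨i, rfl⟩ := hs
    exact hi0 i
  have hB : (t • (1 : Matrix n n ℝ) - A).IsHermitian := by
    refine Matrix.IsHermitian.sub ?_ hA
    unfold Matrix.IsHermitian
    simp
  have hpsd : (t • (1 : Matrix n n ℝ) - A).PosSemidef := by
    rw [hB.posSemidef_iff_eigenvalues_nonneg]
    intro i
    have h1 : Module.End.HasEigenvalue (Matrix.toLin' (t • (1 : Matrix n n ℝ) - A))
        (hB.eigenvalues i) := (eig_iff _ hB _).2 ⟨i, rfl⟩
    rw [toEig] at h1
    obtain ⟨v, hv0, hv⟩ := h1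
    have h2 : Module.End.HasEigenvalue (Matrix.toLin' A) (t - hB.eigenvalues i) := by
      rw [toEig]
      refine ⟨v, hv0, ?_⟩
      rw [Matrix.sub_mulVec, Matrix.smul_mulVec, Matrix.one_mulVec] at hv
      rw [sub_smul, ← hv]; abel
    have := hub _ h2
    simp only [Pi.zero_apply]
    linarith
  refine ⟨t, ⟨(hE t).2 ⟨i0, rfl⟩, fun s hs => hub s hs⟩, fun v => ?_⟩
  have h := hpsd.dotProduct_mulVec_nonneg v
  rw [Matrix.sub_mulVec, Matrix.smul_mulVec, Matrix.one_mulVec, dotProduct_sub, star_trivial,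
    dotProduct_smul, smul_eq_mul] at h
  linarith

lemma isEig_def {d : ℕ} (U : Finset (V d)) (μ : ℝ) :
    IsEig U μ ↔ Module.End.HasEigenvalue (Matrix.toLin' ((sub U).adjMatrix ℝ)) μ := by
  rw [toEig]
  constructor
  · rintro ⟨v, h0, h⟩
    exact ⟨v, h0, by funext x; rw [h x]; rfl⟩
  · rintro ⟨v, h0, h⟩
    exact ⟨v, h0, fun x => by rw [h]; rfl⟩

lemma isTop_def {d : ℕ} (U : Finset (V d)) (μ : ℝ) : IsTop U μ ↔
    IsGreatest {t | Module.End.HasEigenvalue (Matrix.toLin' ((sub U).adjMatrix ℝ)) t} μ := by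
  unfold IsTop
  simp only [isEig_def]

lemma isHerm {d : ℕ} (U : Finset (V d)) : ((sub U).adjMatrix ℝ).IsHermitian := by
  unfold Matrix.IsHermitian
  rw [Matrix.conjTranspose_eq_transpose_of_trivial]
  exact SimpleGraph.isSymm_adjMatrix _

lemma isTop_exists {d : ℕ} (U : Finset (V d)) (hU : U.Nonempty) : ∃ μ, IsTop U μ := by
  have : Nonempty U := hU.to_subtype
  obtain ⟨t, ht, _⟩ := exists_top ((sub U).adjMatrix ℝ) (isHerm U)
  exact ⟨t, (isTop_def U t).2 ht⟩

lemma nonempty_of_eig {d : ℕ} {U : Finset (V d)} {μ : ℝ} (h : IsEig U μ) : U.Nonempty := by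
  obtain ⟨f, hf, hpos, _⟩ := eig_D h
  by_contra h0
  rw [Finset.not_nonempty_iff_eq_empty] at h0
  subst h0
  have : ∑ x, f x ^ 2 = 0 := Finset.sum_eq_zero (fun x _ => by rw [hf x (by simp)]; simp)
  linarith

/-- Rayleigh: the largest eigenvalue bounds the quadratic form of the functions supported on `U`. -/
lemma rayleigh {d : ℕ} {U : Finset (V d)} {μ : ℝ} (h : IsTop U μ) (f : V d → ℝ)
    (hf : ∀ x, x ∉ U → f x = 0) :
    ∑ x, f x * ∑ i, f (flip i x) ≤ μ * ∑ x, f x ^ 2 := by
  have : Nonempty U := (nonempty_of_eig h.1).to_subtype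
  obtain ⟨t, ht, hR⟩ := exists_top ((sub U).adjMatrix ℝ) (isHerm U)
  have htμ : t = μ := ht.unique ((isTop_def U μ).1 h)
  subst htμ
  have hext : ext U (fun x : U => f x.1) = f := by
    funext x
    by_cases hx : x ∈ U
    · simp [ext, hx]
    · simp [ext, hx, hf x hx]
  have := hR (fun x : U => f x.1)
  unfold dotProduct at this
  have e1 : ∀ x : U, f x.1 * Matrix.mulVec ((sub U).adjMatrix ℝ) (fun x : U => f x.1) x
      = (fun z : V d => f z * ∑ i, f (flip i z)) x.1 := by
    intro x; rw [mulVec_eq, hext]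
  rw [Finset.sum_congr rfl (fun x _ => e1 x),
    Finset.sum_coe_sort U (fun z : V d => f z * ∑ i, f (flip i z)),
    Finset.sum_coe_sort U (fun z : V d => f z * f z)] at this
  have h1 : ∑ x, f x * ∑ i, f (flip i x) = ∑ x ∈ U, f x * ∑ i, f (flip i x) := by
    symm; exact Finset.sum_subset (Finset.subset_univ _) (fun x _ hx => by simp [hf x hx])
  have h2 : ∑ x, f x ^ 2 = ∑ x ∈ U, f x * f x := by
    symm; simp only [← sq]
    exact Finset.sum_subset (Finset.subset_univ _) (fun x _ hx => by simp [hf x hx])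
  rw [h1, h2]; exact this

end Pool.Agent.helper65.HC
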